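import Pool.Agent.Helper65.HF.StN
import Pool.Agent.Helper45.GrFinal

/-! # Project HF: module HIL -/

set_option autoImplicit false

namespace Pool.Agent.Helper22.HF

open MvPolynomial Pool.Agent.Helper45 Pool.Agent.Helper45.Gr Pool.Agent.Helper65.HF

theorem hHIL : Pool.Agent.Helper65.HF.sHIL := by
  intro n m j r hm hj
  have hH : (H ℂ j (n + 1) r (m - 1 + j) : ℤ) =
      (Module.finrank ℂ (homogeneousSubmodule (Fin (n + 1)) ℂ (m - 1 + j)) : ℤ) -
        (gen ℂ (Fin (n + 1)) j (m - 1) r : ℤ) := by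
    have h1 : n + 1 + (m - 1 + j) - 1 = n + (m - 1 + j) := by omega
    have h2 : m - 1 + j - j = m - 1 := by omega
    have h3 := gen_le_homog (k := ℂ) (σ := Fin (n + 1)) j (m - 1) r
    rw [finrank_homog_fin] at h3
    unfold H
    rw [if_pos (by omega), finrank_homog_fin, h1, h2, Nat.cast_sub h3]
  constructor
  · intro P hP
    have h3 := codim_eq (j := j) hm P hP
    have h4 : Module.finrank ℂ (setPart (pw (fun (a : Fin r) s =>
        (fun x : Fin r × Fin (n + 1) => P x.1 x.2) (a, s)) j) Finset.univ (m - 1)) ≤ _ :=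
      le_gen (k := ℂ) j (m - 1) P Finset.univ
    rw [Finset.card_univ, Fintype.card_fin] at h4
    rw [← degPart_eq_setPart (k := ℂ) (fun x : Fin r × Fin (n + 1) => P x.1 x.2) j (m - 1)] at h4
    rw [hH]
    omega
  · obtain ⟨G, hG1, hG2⟩ := exists_generic_rank (k := ℂ) n r j (m - 1)
    refine ⟨G, hG1, fun P hP => ?_⟩
    obtain ⟨hP0, hP1⟩ := hG2 P hP
    refine ⟨hP0, ?_⟩
    have h3 := codim_eq (j := j) hm P hP0
    rw [hP1] at h3
    rw [hH]
    omega

end Pool.Agent.Helper22.HF
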